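import Mathlib

namespace Pool.Agent.Results.MP_6e7624_al.Yes

open Pointwise

/-- `E` is an ideal of `S` with minimum `0`. -/
def Idl (S E : Set ℕ) : Prop := 0 ∈ E ∧ E + S ⊆ E

/-- The divisibility order: `J = I + K` for an ideal `K` with minimum `0`. -/
def Le (S I J : Set ℕ) : Prop := ∃ K, Idl S K ∧ J = I + K

/-- The set of ideals of `S` with minimum `0`. -/
def I0 (S : AddSubmonoid ℕ) : Type := {E : Set ℕ // Idl S E}

def Iso (S T : Set ℕ) (f g : Set ℕ → Set ℕ) : Prop :=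
  (∀ I, Idl S I → Idl T (f I) ∧ g (f I) = I) ∧ (∀ J, Idl T J → Idl S (g J) ∧ f (g J) = J) ∧
    ∀ I J, Idl S I → Idl S J → (Le S I J ↔ Le T (f I) (f J))

variable {S T I J : Set ℕ} {f g : Set ℕ → Set ℕ} {F : ℕ}

lemma Iso.symm (h : Iso S T f g) : Iso T S g f :=
  ⟨h.2.1, h.1, fun I J hI hJ => by
    rw [h.2.2 _ _ (h.2.1 I hI).1 (h.2.1 J hJ).1, (h.2.1 I hI).2, (h.2.1 J hJ).2]⟩

lemma Idl.add (h : Idl S I) {a b : ℕ} (ha : a ∈ I) (hb : b ∈ S) : a + b ∈ I :=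
  h.2 (Set.add_mem_add ha hb)

lemma Idl.mk' (h0 : 0 ∈ I) (h : ∀ a ∈ I, ∀ b ∈ S, a + b ∈ I) : Idl S I :=
  ⟨h0, by rintro _ ⟨a, ha, b, hb, rfl⟩; exact h a ha b hb⟩

lemma Idl.sub (h : Idl S I) : S ⊆ I := fun s hs => by simpa using h.add h.1 hs

lemma Le.sub (h : Le S I J) : I ⊆ J := by
  obtain ⟨K, hK, rfl⟩ := h
  intro a ha
  simpa using Set.add_mem_add ha hK.1

lemma Idl.fin (hS : Sᶜ.Finite) (h : Idl S I) : Iᶜ.Finite :=
  hS.subset (Set.compl_subset_compl.mpr h.sub)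

lemma le_of_idl (h0 : 0 ∈ T) (hS : Idl S J) (h : Idl T J) : Le S T J :=
  ⟨J, hS, Set.Subset.antisymm (fun a ha => by simpa using Set.add_mem_add h0 ha)
    (by rw [add_comm]; exact h.2)⟩

lemma exists_top (h : Iᶜ.Finite) (hn : Iᶜ.ncard ≠ 0) : ∃ F, F ∉ I ∧ ∀ x, F < x → x ∈ I := by
  obtain ⟨F, h1, h2⟩ := Set.exists_max_image Iᶜ id h (Set.nonempty_of_ncard_ne_zero hn)
  refine ⟨F, h1, fun x hx => ?_⟩
  by_contra e
  exact absurd (h2 x e) (by simpa using hx)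

lemma rk_insert (h : Iᶜ.Finite) (hF : F ∉ I) : (insert F I)ᶜ.ncard + 1 = Iᶜ.ncard := by
  have : (insert F I)ᶜ = Iᶜ \ {F} := by ext x; simp; tauto
  rw [this]
  exact Set.ncard_sdiff_singleton_add_one hF h

lemma up (hS : Idl S S) (h : Idl S I) (h2 : ∀ x, F < x → x ∈ I) :
    Idl S (insert F I) ∧ Le S I (insert F I) := by
  refine ⟨Idl.mk' (Or.inr h.1) ?_, {x | x ∈ S ∨ ∃ s ∈ S, x = F + s},
    Idl.mk' (Or.inl hS.1) ?_, Set.Subset.antisymm ?_ ?_⟩
  · rintro a (rfl | ha) b hb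
    · rcases Nat.eq_zero_or_pos b with rfl | hb
      · exact Or.inl rfl
      · exact Or.inr (h2 _ (by omega))
    · exact Or.inr (h.add ha hb)
  · rintro a (ha | ⟨s, hs, rfl⟩) b hb
    · exact Or.inl (hS.add ha hb)
    · exact Or.inr ⟨s + b, hS.add hs hb, by omega⟩
  · rintro a (rfl | ha)
    · exact ⟨0, h.1, a, Or.inr ⟨0, hS.1, rfl⟩, by simp⟩
    · exact ⟨a, ha, 0, Or.inl hS.1, rfl⟩
  · rintro _ ⟨a, ha, b, (hb | ⟨s, -, rfl⟩), rfl⟩
    · exact Or.inr (h.add ha hb)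
    · rcases Nat.eq_zero_or_pos (a + s) with e | e
      · exact Or.inl (by show a + (F + s) = F; omega)
      · exact Or.inr (h2 _ (by show F < a + (F + s); omega))

lemma rk_le (hS : Idl S S) (hf : Sᶜ.Finite) (hT : Tᶜ.Finite) (h : Iso S T f g) :
    ∀ r I, Idl S I → Iᶜ.ncard = r → r ≤ (f I)ᶜ.ncard := by
  intro r
  induction r with
  | zero => intros; omega
  | succ r ih =>
    intro I hI hr
    obtain ⟨F, h1, h2⟩ := exists_top (hI.fin hf) (by omega)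
    obtain ⟨h3, h4⟩ := up hS hI h2
    have h5 := ih _ h3 (by have := rk_insert (hI.fin hf) h1; omega)
    have h6 : f I ⊆ f (insert F I) := ((h.2.2 _ _ hI h3).mp h4).sub
    have h7 : f I ≠ f (insert F I) := fun e => h1 (by
      rw [← (h.1 I hI).2, e, (h.1 _ h3).2]; exact Or.inl rfl)
    have h8 : (f (insert F I))ᶜ ⊂ (f I)ᶜ :=
      Set.ssubset_iff_subset_ne.mpr ⟨Set.compl_subset_compl.mpr h6,
        fun e => h7 (compl_injective e).symm⟩
    have := Set.ncard_lt_ncard h8 ((h.1 I hI).1.fin hT)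
    omega

lemma rk_eq (hS : Idl S S) (hf : Sᶜ.Finite) (hT : Idl T T) (hg : Tᶜ.Finite) (h : Iso S T f g)
    (hI : Idl S I) : (f I)ᶜ.ncard = Iᶜ.ncard := by
  have h1 := rk_le hS hf hg h _ I hI rfl
  have h2 := rk_le hT hg hf h.symm _ _ (h.1 I hI).1 rfl
  rw [(h.1 I hI).2] at h2
  omega

lemma bot_eq (hS : Idl S S) (hT : Idl T T) (h : Iso S T f g) : f S = T := by
  have h1 := (h.2.2 _ _ hS (h.2.1 T hT).1).mp (le_of_idl hS.1 (h.2.1 T hT).1 (h.2.1 T hT).1)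
  rw [(h.2.1 T hT).2] at h1
  exact Set.Subset.antisymm h1.sub (h.1 S hS).1.sub

/-- The largest ideal missing `a`. -/
def KK (S : Set ℕ) (a : ℕ) : Set ℕ := {z | ¬ ∃ s ∈ S, z + s = a}

lemma KK_idl (hS : Idl S S) (hF : F ∉ S) : Idl S (KK S F) := by
  refine Idl.mk' ?_ ?_
  · rintro ⟨s, hs, e⟩
    exact hF (by rw [← e]; simpa using hs)
  · rintro a ha b hb ⟨s, hs, e⟩
    exact ha ⟨b + s, hS.add hb hs, by omega⟩

lemma KK_not (hS : Idl S S) : F ∉ KK S F := fun h => h ⟨0, hS.1, rfl⟩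

lemma sub_KK (h : Idl S J) (hF : F ∉ J) : J ⊆ KK S F := by
  rintro z hz ⟨s, hs, e⟩
  exact hF (e ▸ h.add hz hs)

lemma rk_KK : (KK S F)ᶜ.ncard = {s ∈ S | s ≤ F}.ncard := by
  refine Set.ncard_congr (fun z _ => F - z) ?_ ?_ ?_
  · intro z hz
    obtain ⟨s, hs, e⟩ := not_not.mp hz
    exact ⟨by rw [show F - z = s by omega]; exact hs, by omega⟩
  · intro a b ha hb e
    obtain ⟨s, -, e1⟩ := not_not.mp ha
    obtain ⟨t, -, e2⟩ := not_not.mp hb
    omega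
  · rintro s ⟨hs, h⟩
    exact ⟨F - s, not_not.mpr ⟨s, hs, by omega⟩, by omega⟩

lemma fin_low : {s ∈ S | s ≤ F}.Finite := (Set.finite_Iic F).subset fun _ h => h.2

lemma count (hf : Sᶜ.Finite) (h2 : ∀ x, F < x → x ∈ S) :
    {s ∈ S | s ≤ F}.ncard + Sᶜ.ncard = F + 1 := by
  rw [← Set.ncard_union_eq (s := {s ∈ S | s ≤ F}) (t := Sᶜ)
    (Set.disjoint_left.mpr fun a h1 h2 => h2 h1.1) fin_low hf]
  have : {s ∈ S | s ≤ F} ∪ Sᶜ = Set.Iic F := by
    ext x
    constructor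
    · rintro (h | h)
      · exact h.2
      · exact not_lt.mp fun e => h (h2 x e)
    · intro h
      by_cases e : x ∈ S
      · exact Or.inl ⟨e, h⟩
      · exact Or.inr e
  rw [this]
  simp

lemma ins_idl (h : Idl S J) (h2 : ∀ x, F < x → x ∈ S) (hF : F ∈ J) : Idl (insert F S) J := by
  refine Idl.mk' h.1 ?_
  rintro a ha b (rfl | hb)
  · rcases Nat.eq_zero_or_pos a with rfl | e
    · simpa using hF
    · exact h.sub (h2 _ (by omega))
  · exact h.add ha hb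

lemma low (hS : Idl S S) (hf : Sᶜ.Finite) (hT : Idl T T) (hg : Tᶜ.Finite) (h : Iso S T f g)
    (h2 : ∀ x, F < x → x ∈ S) (hJ : Idl T J) (hn : ¬ Le T (f (insert F S)) J) :
    {s ∈ S | s ≤ F}.ncard ≤ Jᶜ.ncard ∧
      ({s ∈ S | s ≤ F}.ncard = Jᶜ.ncard → J = f (KK S F)) := by
  obtain ⟨h3, h4⟩ := h.2.1 J hJ
  have h5 : F ∉ g J := fun e => hn (by
    rw [← h4, ← h.2.2 _ _ (up hS hS h2).1 h3]
    exact le_of_idl (Or.inr hS.1) h3 (ins_idl h3 h2 e))
  have h6 := Set.compl_subset_compl.mpr (sub_KK h3 h5)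
  have h7 := rk_eq hT hg hS hf h.symm hJ
  rw [← rk_KK, ← h7]
  refine ⟨Set.ncard_le_ncard h6 (h3.fin hf), fun e => ?_⟩
  rw [compl_injective (Set.eq_of_subset_of_ncard_le h6 e.ge (h3.fin hf)), h4]

lemma img (hS : Idl S S) (hf : Sᶜ.Finite) (hT : Idl T T) (hg : Tᶜ.Finite) (h : Iso S T f g)
    (h1 : F ∉ S) (h2 : ∀ x, F < x → x ∈ S) : ∃ a, a ∉ T ∧ f (insert F S) = insert a T := by
  have h3 := (up hS hS h2).1
  have h4 := (h.1 _ h3).1
  have h5 := rk_eq hS hf hT hg h h3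
  have h6 := rk_eq hS hf hT hg h hS
  rw [bot_eq hS hT h] at h6
  have h7 := rk_insert hf h1
  have : ¬ f (insert F S) ⊆ T := fun e => by
    have := Set.ncard_le_ncard (Set.compl_subset_compl.mpr e) (h4.fin hg)
    omega
  obtain ⟨a, h8, h9⟩ := Set.not_subset.mp this
  refine ⟨a, h9, compl_injective (Set.eq_of_subset_of_ncard_le
    (Set.compl_subset_compl.mpr (Set.insert_subset h8 h4.sub)) ?_
    (hg.subset (Set.compl_subset_compl.mpr (Set.subset_insert _ _))))⟩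
  have := rk_insert hg h9
  omega

lemma restrict {S' T' : Set ℕ} (h : Iso S T f g) (hS : S ⊆ S') (hT : T ⊆ T') (hS' : Idl S' S')
    (hT' : Idl T' T') (e : f S' = T') : Iso S' T' f g := by
  have A : ∀ {S S' I : Set ℕ}, S ⊆ S' → Idl S' I → Idl S I := fun h1 h2 =>
    Idl.mk' h2.1 fun a ha b hb => h2.add ha (h1 hb)
  have B : ∀ {S S' I : Set ℕ}, Idl S' S' → Le S S' I → Idl S' I := by
    rintro S S' _ h1 ⟨K, hK, rfl⟩
    refine Idl.mk' ⟨0, h1.1, 0, hK.1, rfl⟩ ?_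
    rintro _ ⟨a, ha, k, hk, rfl⟩ b hb
    exact ⟨a + b, h1.add ha hb, k, hk, by simp only; omega⟩
  have C : ∀ {S S' I J : Set ℕ}, S ⊆ S' → Idl S' S' → Idl S' I → (Le S' I J ↔ Le S I J) := by
    intro S S' I J h1 h2 h3
    refine ⟨fun ⟨K, hK, e⟩ => ⟨K, A h1 hK, e⟩, fun ⟨K, hK, e⟩ =>
      ⟨S' + K, B h2 ⟨K, hK, rfl⟩, ?_⟩⟩
    rw [e, ← add_assoc, Set.Subset.antisymm h3.2
      (fun a ha => by simpa using Set.add_mem_add ha h2.1)]
  have D : ∀ {S T S' T' : Set ℕ} {f g : Set ℕ → Set ℕ}, Iso S T f g → S ⊆ S' → Idl S' S' →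
      Idl T' T' → f S' = T' → ∀ I, Idl S' I → Idl T' (f I) ∧ g (f I) = I := by
    intro S T S' T' f g h hS hS' hT' e I hI
    refine ⟨B (S := T) hT' ?_, (h.1 I (A hS hI)).2⟩
    rw [← e, ← h.2.2 _ _ (A hS hS') (A hS hI)]
    exact le_of_idl hS'.1 (A hS hI) hI
  have e2 : g T' = S' := by rw [← e, (h.1 _ (A hS hS')).2]
  refine ⟨D h hS hS' hT' e, D h.symm hT hT' hS' e2, fun I J hI hJ => ?_⟩
  rw [C hS hS' hI, C hT hT' (D h hS hS' hT' e I hI).1, h.2.2 _ _ (A hS hI) (A hS hJ)]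

lemma nle {G : ℕ} (hS : Idl S S) (hf : Sᶜ.Finite) (hT : Idl T T) (hg : Tᶜ.Finite)
    (h : Iso S T f g) (h1 : F ∉ S) (h2 : ∀ x, F < x → x ∈ S) (h3 : ∀ x, G < x → x ∈ T) :
    {s ∈ S | s ≤ F}.ncard ≤ {s ∈ T | s ≤ G}.ncard := by
  obtain ⟨a, h4, h5⟩ := img hS hf hT hg h h1 h2
  have h6 := (low hS hf hT hg h h2 (KK_idl hT h4)
    (fun e => KK_not hT (e.sub (by rw [h5]; exact Or.inl rfl)))).1
  rw [rk_KK] at h6
  have h7 : a ≤ G := not_lt.mp fun e => h4 (h3 a e)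
  exact h6.trans (Set.ncard_le_ncard (fun x hx => ⟨hx.1, hx.2.trans h7⟩) fin_low)

lemma main : ∀ (r : ℕ) (S T : Set ℕ), Idl S S → Sᶜ.Finite → Idl T T → Tᶜ.Finite →
    Iso S T f g → Sᶜ.ncard = r → S = T := by
  intro r
  induction r with
  | zero =>
    intro S T hS hf hT hg h hr
    have h6 := rk_eq hS hf hT hg h hS
    rw [bot_eq hS hT h, hr, Set.ncard_eq_zero hg] at h6
    rw [Set.ncard_eq_zero hf] at hr
    exact compl_injective (hr.trans h6.symm)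
  | succ r ih =>
    intro S T hS hf hT hg h hr
    have h6 := rk_eq hS hf hT hg h hS
    rw [bot_eq hS hT h] at h6
    obtain ⟨F, a1, a2⟩ := exists_top hf (by omega)
    obtain ⟨G, b1, b2⟩ := exists_top hg (by omega)
    have n1 := nle hS hf hT hg h a1 a2 b2
    have n2 := nle hT hg hS hf h.symm b1 b2 a2
    have c1 := count hf a2
    have c2 := count hg b2
    obtain rfl : F = G := by omega
    obtain ⟨a, h4, h5⟩ := img hS hf hT hg h a1 a2
    by_cases haF : a = F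
    · subst haF
      have i1 := ins_idl (up hS hS a2).1 a2 (Or.inl rfl)
      have i2 := ins_idl (up hT hT b2).1 b2 (Or.inl rfl)
      have := ih _ _ i1 ((up hS hS a2).1.fin hf) i2 ((up hT hT b2).1.fin hg)
        (restrict h (Set.subset_insert _ _) (Set.subset_insert _ _) i1 i2 h5)
        (by have := rk_insert hf a1; omega)
      rw [← Set.insert_sdiff_self_of_notMem a1, this, Set.insert_sdiff_self_of_notMem b1]
    have h7 : a < F := lt_of_le_of_ne (not_lt.mp fun e => h4 (b2 a e)) haF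
    have hpf : ∀ s ∈ T, 0 < s → a + s ∈ T := by
      intro s hs h0
      have := (h.1 _ (up hS hS a2).1).1
      rw [h5] at this
      rcases this.add (Or.inl rfl) hs with e | e
      · omega
      · exact e
    obtain ⟨l1, l2⟩ := low hS hf hT hg h a2 (KK_idl hT h4)
      (fun e => KK_not hT (e.sub (by rw [h5]; exact Or.inl rfl)))
    rw [rk_KK] at l1 l2
    have sub : {s ∈ T | s ≤ a} ⊆ {s ∈ T | s ≤ F} := fun x hx => ⟨hx.1, hx.2.trans h7.le⟩
    have l3 := Set.ncard_le_ncard sub fin_low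
    have l4 := Set.eq_of_subset_of_ncard_le sub (by omega) fin_low
    have l5 : ∀ s ∈ T, s ≤ F → s ≤ a := fun s h1 h2 =>
      (show s ∈ {s ∈ T | s ≤ a} by rw [l4]; exact ⟨h1, h2⟩).2
    have k1 : a ∈ KK T F := by
      rintro ⟨s, hs, e⟩
      exact b1 (e ▸ hpf s hs (by omega))
    by_cases h2a : F < 2 * a
    · exfalso
      have k2 : ¬ Le T (f (insert F S)) (KK T F) := by
        rw [h5]
        rintro ⟨L, hL, e⟩
        have k3 : F - a ∈ KK T F := by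
          rintro ⟨s, hs, e⟩
          exact h4 (by rw [show a = s by omega]; exact hs)
        have k4 : F - a ∈ L := by
          rw [e] at k3
          obtain ⟨x, (rfl | hx), y, hy, e2⟩ := k3
          · simp only at e2; omega
          · rw [← e2]; simp only; rw [add_comm]; exact hL.add hy hx
        refine KK_not (F := F) hT ?_
        have : a + (F - a) ∈ insert a T + L := Set.add_mem_add (Or.inl rfl) k4
        rwa [← e, show a + (F - a) = F by omega] at this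
      have k5 := (low hS hf hT hg h a2 (KK_idl hT b1) k2).2 (by rw [rk_KK]; omega)
      rw [k5, ← l2 (by omega)] at k1
      exact KK_not hT k1
    · have o1 : {s ∈ T | s ≤ F} = {0} := by
        ext s
        constructor
        · rintro ⟨h1, h2⟩
          by_contra e
          have e1 : 0 < s := Nat.pos_of_ne_zero e
          have := l5 s h1 h2
          have := l5 _ (hpf s h1 e1) (by omega)
          omega
        · rintro rfl
          exact ⟨hT.1, Nat.zero_le _⟩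
      have o2 : {0} = {s ∈ S | s ≤ F} := Set.eq_of_subset_of_ncard_le
        (by rintro _ rfl; exact ⟨hS.1, Nat.zero_le _⟩) (by rw [← o1]; exact n1) fin_low
      ext x
      rcases le_or_gt x F with e | e
      · have := Set.ext_iff.mp (o1.trans o2) x
        simpa [e] using this.symm
      · simp [a2 x e, b2 x e]

/-- Numerical semigroups whose posets of normalized ideals are isomorphic are equal. -/
theorem result (S₁ S₂ : AddSubmonoid ℕ) (h₁ : (S₁ : Set ℕ)ᶜ.Finite) (h₂ : (S₂ : Set ℕ)ᶜ.Finite)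
    (φ : I0 S₁ ≃ I0 S₂) (hφ : ∀ I J : I0 S₁, Le S₁ I.1 J.1 ↔ Le S₂ (φ I).1 (φ J).1) :
    S₁ = S₂ := by
  classical
  have A : ∀ S : AddSubmonoid ℕ, Idl S S := fun S =>
    Idl.mk' S.zero_mem fun _ ha _ hb => S.add_mem ha hb
  refine SetLike.coe_injective (main (f := fun E => if h : Idl S₁ E then (φ ⟨E, h⟩).1 else E)
    (g := fun E => if h : Idl S₂ E then (φ.symm ⟨E, h⟩).1 else E) _ _ _ (A _) h₁ (A _) h₂
    ⟨fun I hI => ?_, fun J hJ => ?_, fun I J hI hJ => ?_⟩ rfl)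
  · simp only [dif_pos hI, dif_pos (φ ⟨I, hI⟩).2]
    exact ⟨(φ ⟨I, hI⟩).2, congrArg Subtype.val (φ.symm_apply_apply ⟨I, hI⟩)⟩
  · simp only [dif_pos hJ, dif_pos (φ.symm ⟨J, hJ⟩).2]
    exact ⟨(φ.symm ⟨J, hJ⟩).2, congrArg Subtype.val (φ.apply_symm_apply ⟨J, hJ⟩)⟩
  · simp only [dif_pos hI, dif_pos hJ]
    exact hφ ⟨I, hI⟩ ⟨J, hJ⟩

end Pool.Agent.Results.MP_6e7624_al.Yes
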